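import Pool.Agent.Helper59.EX.Monod0

/-!
# Piecewise projective homeomorphisms of the real line: definitions
-/

open Topology
open scoped MatrixGroups

namespace Pool.Agent.Helper59.PP

/-- The homeomorphism `f` of the line is piecewise projective: near every point outside of a finite
set it agrees with a map `y ↦ (α y + β) / (γ y + δ)`, `α δ - β γ = 1`. -/
def IsPP (f : ℝ ≃ₜ ℝ) : Prop :=
  ∃ F : Set ℝ, F.Finite ∧ ∀ x ∉ F, ∃ g : SL(2, ℝ), g 1 0 * x + g 1 1 ≠ 0 ∧
    ∀ᶠ y in 𝓝 x, f y = (g 0 0 * y + g 0 1) / (g 1 0 * y + g 1 1)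

/-- The homeomorphism `f` is given by `g` on the open interval `(a, b)`. -/
def ActsAs (f : ℝ ≃ₜ ℝ) (g : SL(2, ℝ)) (a b : ℝ) : Prop :=
  ∀ x ∈ Set.Ioo a b, f x = (g 0 0 * x + g 0 1) / (g 1 0 * x + g 1 1)

/-- All the entries of `g - 1` are at most `ε` in absolute value. -/
def NearOne (ε : ℝ) (g : SL(2, ℝ)) : Prop :=
  |g 0 0 - 1| ≤ ε ∧ |g 0 1| ≤ ε ∧ |g 1 0| ≤ ε ∧ |g 1 1 - 1| ≤ ε

/-- Small free pairs: on some open interval and for every `ε > 0` there are two elements of `W` which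
act there as two matrices `g₀, g₁`, `ε`-close to `1`, which generate a free group of rank two. -/
def HasSmallFreePairs (W : Subgroup (ℝ ≃ₜ ℝ)) : Prop :=
  ∃ a b : ℝ, a < b ∧ ∀ ε : ℝ, 0 < ε → ∃ g : Fin 2 → SL(2, ℝ),
    (∀ i, NearOne ε (g i)) ∧ Function.Injective (FreeGroup.lift g) ∧
      ∀ i, ∃ f ∈ W, ActsAs f (g i) a b

/-- The second generator of the group of Lodha and Moore. -/
noncomputable def lmB (t : ℝ) : ℝ :=
  if t ≤ 0 then t else if t ≤ 1 / 2 then t / (1 - t) else if t ≤ 1 then 3 - 1 / t else t + 1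

/-- The third generator of the group of Lodha and Moore. -/
noncomputable def lmC (t : ℝ) : ℝ :=
  if t ≤ 0 then t else if t ≤ 1 then 2 * t / (1 + t) else t

/-- The group of Lodha and Moore, generated by `a(t) = t + 1`, `b` and `c`. -/
def LodhaMoore : Subgroup (ℝ ≃ₜ ℝ) :=
  Subgroup.closure {f | (∀ t, f t = t + 1) ∨ (∀ t, f t = lmB t) ∨ (∀ t, f t = lmC t)}

end Pool.Agent.Helper59.PP
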