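import Pool.Agent.Helper59.PP.Loc
import Pool.Agent.Helper59.EX.St.M2

/-!
# Free subgroups of infinite rank in the free group of rank two
-/

open Matrix OnePoint Topology
open scoped MatrixGroups

namespace Pool.Agent.Helper59.PP

open Pool.Agent.Helper59.EX

/-- the shift -/
def shiftAut : MulAut (FreeGroup ℤ) := FreeGroup.freeGroupCongr (Equiv.addLeft 1)

/-- the action of the integers by shifts -/
def shiftHom : Multiplicative ℤ →* MulAut (FreeGroup ℤ) := zpowersHom _ shiftAut

theorem shiftAut_of (j : ℤ) : shiftAut (FreeGroup.of j) = FreeGroup.of (1 + j) := rfl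

theorem shiftHom_of (i : ℕ) :
    shiftHom (Multiplicative.ofAdd (i : ℤ)) (FreeGroup.of 0) = FreeGroup.of (i : ℤ) := by
  have h : shiftHom (Multiplicative.ofAdd (i : ℤ)) = shiftAut ^ i := by
    unfold shiftHom
    rw [zpowersHom_apply, toAdd_ofAdd, zpow_natCast]
  rw [h]
  induction i with
  | zero => rfl
  | succ i ih =>
    rw [pow_succ', MulAut.mul_apply, ih, shiftAut_of]
    · congr 1
      push_cast
      ring
    · unfold shiftHom
      rw [zpowersHom_apply, toAdd_ofAdd, zpow_natCast]

/-- the elements `x^i y x^(-i)` -/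
def cw (i : ℕ) : FreeGroup (Fin 2) :=
  FreeGroup.of 0 ^ i * FreeGroup.of 1 * (FreeGroup.of 0 ^ i)⁻¹

theorem lift_cw_injective (n : ℕ) :
    Function.Injective (FreeGroup.lift (fun i : Fin n => cw i)) := by
  let X : FreeGroup ℤ ⋊[shiftHom] Multiplicative ℤ := SemidirectProduct.inr (Multiplicative.ofAdd 1)
  let Y : FreeGroup ℤ ⋊[shiftHom] Multiplicative ℤ := SemidirectProduct.inl (FreeGroup.of 0)
  let ψ : FreeGroup (Fin 2) →* FreeGroup ℤ ⋊[shiftHom] Multiplicative ℤ :=
    FreeGroup.lift (fun i => if i = 0 then X else Y)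
  have h1 : ∀ i : ℕ, ψ (cw i) = SemidirectProduct.inl (FreeGroup.of (i : ℤ)) := by
    intro i
    have e : X ^ i = SemidirectProduct.inr (Multiplicative.ofAdd (i : ℤ)) := by
      have : X ^ i = SemidirectProduct.inr ((Multiplicative.ofAdd (1 : ℤ)) ^ i) := by
        rw [map_pow]
      rw [this, ← ofAdd_nsmul]
      simp
    have e2 : ψ (cw i) = X ^ i * Y * (X ^ i)⁻¹ := by
      simp [ψ, cw]
    rw [e2, e, ← map_inv, ← SemidirectProduct.inl_aut, shiftHom_of]
  have h2 : ψ.comp (FreeGroup.lift (fun i : Fin n => cw i)) =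
      (SemidirectProduct.inl : FreeGroup ℤ →* FreeGroup ℤ ⋊[shiftHom] Multiplicative ℤ).comp
        (FreeGroup.map (fun i : Fin n => ((i : ℕ) : ℤ))) := by
    ext i : 1
    rw [MonoidHom.comp_apply, MonoidHom.comp_apply, FreeGroup.lift_apply_of, h1, FreeGroup.map.of]
  have h3 : Function.Injective (ψ.comp (FreeGroup.lift (fun i : Fin n => cw i))) := by
    rw [h2]
    refine SemidirectProduct.inl_injective.comp (FreeGroup.map_injective ?_)
    intro i j hij
    have hij' : ((i : ℕ) : ℤ) = ((j : ℕ) : ℤ) := hij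
    exact Fin.ext (by exact_mod_cast hij')
  exact Function.Injective.of_comp h3

theorem sq_of_mobPerm {g : SL(2, ℝ)} (hg : mobPerm g = 1) : g * g = 1 := by
  have hx : ∀ x, mob g x = x := fun x => by
    have : mobPerm g x = x := by rw [hg]; rfl
    exact this
  have h10 : g 1 0 = 0 := by
    by_contra h
    have h1 := hx ∞
    unfold mob at h1
    rw [OnePoint.smul_infty_eq_ite] at h1
    simp [h] at h1
  have hdet := det_eq g
  rw [h10, mul_zero, sub_zero] at hdet
  have h11 : g 1 1 ≠ 0 := right_ne_zero_of_mul_eq_one hdet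
  have hreal : ∀ x : ℝ, (g 0 0 * x + g 0 1) / g 1 1 = x := by
    intro x
    have h1 := hx (x : OnePoint ℝ)
    rw [mob_coe g x (by rw [h10, zero_mul, zero_add]; exact h11)] at h1
    have h2 := OnePoint.coe_injective h1
    rwa [h10, zero_mul, zero_add] at h2
  have h01 : g 0 1 = 0 := by
    have := hreal 0
    rw [mul_zero, zero_add, div_eq_zero_iff] at this
    exact this.resolve_right h11
  have h00 : g 0 0 = g 1 1 := by
    have := hreal 1
    rwa [h01, mul_one, add_zero, div_eq_one_iff_eq h11] at this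
  rw [h00] at hdet
  ext i j
  fin_cases i <;> fin_cases j <;>
    simp [Matrix.mul_apply, Fin.sum_univ_two, h10, h01, h00, hdet]

theorem lift_conj_injective {g : Fin 2 → SL(2, ℝ)} (hg : Function.Injective (FreeGroup.lift g))
    (n : ℕ) : Function.Injective (FreeGroup.lift
      (fun i : Fin n => mobPerm (g 0 ^ (i : ℕ) * g 1 * (g 0 ^ (i : ℕ))⁻¹))) := by
  have h1 : FreeGroup.lift (fun i : Fin n => mobPerm (g 0 ^ (i : ℕ) * g 1 * (g 0 ^ (i : ℕ))⁻¹)) =
      mobPerm.comp ((FreeGroup.lift g).comp (FreeGroup.lift (fun i : Fin n => cw i))) := by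
    ext i : 1
    simp [cw]
  rw [h1, injective_iff_map_eq_one]
  intro w hw
  have h2 := sq_of_mobPerm hw
  rw [MonoidHom.comp_apply, ← map_mul] at h2
  have h3 := hg (h2.trans (map_one _).symm)
  have h4 : (FreeGroup.lift (fun i : Fin n => cw i) w) ^ 2 = 1 := by rw [sq, h3]
  have h5 : FreeGroup.lift (fun i : Fin n => cw i) w = 1 := by
    exact (pow_eq_one_iff_left (two_ne_zero)).1 h4
  exact lift_cw_injective n (h5.trans (map_one _).symm)

end Pool.Agent.Helper59.PP
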