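import Pool.Agent.Helper59.PP.Free
import Pool.Agent.Helper59.EX.MonodCrit

/-!
# The criterion for groups of piecewise projective homeomorphisms of the line
-/

open Matrix OnePoint Topology MeasureTheory
open scoped MatrixGroups ENNReal

namespace Pool.Agent.Helper59.PP

open Pool.Agent.Helper59.EX

/-- the extension to the projective line -/
noncomputable def toProj : (ℝ ≃ₜ ℝ) →* (OnePoint ℝ ≃ₜ OnePoint ℝ) where
  toFun f := f.onePointCongr
  map_one' := by
    ext x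
    induction x using OnePoint.rec <;> rfl
  map_mul' f g := by
    ext x
    induction x using OnePoint.rec <;> rfl

theorem toProj_coe (f : ℝ ≃ₜ ℝ) (x : ℝ) : toProj f (x : OnePoint ℝ) = ((f x : ℝ) : OnePoint ℝ) :=
  rfl

theorem toProj_infty (f : ℝ ≃ₜ ℝ) : toProj f OnePoint.infty = OnePoint.infty := rfl

theorem germ_of {f : ℝ ≃ₜ ℝ} {g : SL(2, ℝ)} {x : ℝ} (h0 : g 1 0 * x + g 1 1 ≠ 0)
    (h : ∀ᶠ y in 𝓝 x, f y = (g 0 0 * y + g 0 1) / (g 1 0 * y + g 1 1)) :
    ∀ᶠ y in 𝓝 (x : OnePoint ℝ), toProj f y = mob g y := by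
  rw [OnePoint.nhds_coe_eq, Filter.eventually_map]
  have hev : ∀ᶠ y in 𝓝 x, g 1 0 * y + g 1 1 ≠ 0 := by
    have hc : Continuous fun y : ℝ => g 1 0 * y + g 1 1 := by fun_prop
    exact hc.continuousAt.eventually_ne h0
  filter_upwards [h, hev] with y hy hy'
  rw [toProj_coe, mob_coe g y hy', hy]

theorem IsPP.finite {f : ℝ ≃ₜ ℝ} (hf : IsPP f) : {x | ¬ LocMob (toProj f) x}.Finite := by
  obtain ⟨F, hF, h⟩ := hf
  refine ((hF.image (fun x : ℝ => (x : OnePoint ℝ))).union (Set.finite_singleton OnePoint.infty)).subset ?_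
  intro x hx
  induction x using OnePoint.rec with
  | infty => exact Or.inr rfl
  | coe x =>
    left
    by_contra hc
    apply hx
    obtain ⟨g, h0, hg⟩ := h x (fun hxF => hc ⟨x, hxF, rfl⟩)
    exact ⟨g, germ_of h0 hg⟩

private lemma integrable_sqrt {W X : Type} [Group W] [MeasurableSpace X] (m : Measure X)
    [MulAction W X]
    (J : W → X → ℝ) (hJm : ∀ g, Measurable (J g)) (hJ0 : ∀ g x, 0 < J g x)
    (hJint : ∀ (g : W) (F : X → ℝ≥0∞), Measurable F →
      ∫⁻ x, F (g • x) * ENNReal.ofReal (J g x) ∂m = ∫⁻ x, F x ∂m)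
    (Ω : Set X) (hΩ : MeasurableSet Ω) (hΩ1 : m Ω = 1) (g : W) (B : Set X)
    (hB : MeasurableSet B) (hB1 : B ⊆ Ω) (hB2 : ∀ x ∈ B, g • x ∈ Ω) :
    IntegrableOn (fun x => Real.sqrt (J g x)) B m := by
  have hJi : IntegrableOn (J g) B m := by
    refine ⟨(hJm g).aestronglyMeasurable, ?_⟩
    rw [hasFiniteIntegral_iff_ofReal (ae_of_all _ (fun x => (hJ0 g x).le))]
    calc ∫⁻ x in B, ENNReal.ofReal (J g x) ∂m
        = ∫⁻ x, B.indicator (fun x => ENNReal.ofReal (J g x)) x ∂m := (lintegral_indicator hB _).symm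
      _ ≤ ∫⁻ x, (Ω.indicator (fun _ => (1 : ℝ≥0∞))) (g • x) * ENNReal.ofReal (J g x) ∂m := by
          refine lintegral_mono (fun x => ?_)
          by_cases hx : x ∈ B
          · rw [Set.indicator_of_mem hx, Set.indicator_of_mem (hB2 x hx), one_mul]
          · rw [Set.indicator_of_notMem hx]
            exact zero_le
      _ = ∫⁻ x, Ω.indicator (fun _ => (1 : ℝ≥0∞)) x ∂m := hJint g _ (measurable_const.indicator hΩ)
      _ = m Ω := by rw [lintegral_indicator hΩ]; simp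
      _ < ⊤ := by rw [hΩ1]; exact ENNReal.one_lt_top
  have h1 : IntegrableOn (fun _ => (1 : ℝ)) B m := by
    refine integrableOn_const ?_
    exact ((measure_mono hB1).trans_lt (by rw [hΩ1]; exact ENNReal.one_lt_top)).ne
  refine (h1.add hJi).mono' (hJm g).sqrt.aestronglyMeasurable (ae_of_all _ fun x => ?_)
  rw [Real.norm_of_nonneg (Real.sqrt_nonneg _)]
  simp only [Pi.add_apply]
  nlinarith [Real.sq_sqrt (hJ0 g x).le, Real.sqrt_nonneg (J g x), sq_nonneg (Real.sqrt (J g x) - 1 / 2)]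

theorem exists_clo {a b : ℝ} (hab : a < b) {g : Fin 2 → SL(2, ℝ)} {f : Fin 2 → (ℝ ≃ₜ ℝ)} {ε : ℝ}
    (hε : ε * (1 + max |a| |b|) ^ 2 ≤ (b - a) / 800 / 2)
    (hε2 : ε * (1 + max |a| |b|) ≤ 1 / 400)
    (hg : ∀ i, NearOne ε (g i)) (hf : ∀ i, ActsAs (f i) (g i) a b) (i : ℕ) (hi : i < 100) :
    Clo a b ((b - a) / 800) (1 + 1 / 400) 199 (f 0 ^ i * f 1 * (f 0 ^ i)⁻¹)
      (g 0 ^ i * g 1 * (g 0 ^ i)⁻¹) := by
  have hη : 0 ≤ (b - a) / 800 := by linarith
  have hR : 0 ≤ max |a| |b| := (abs_nonneg a).trans (le_max_left _ _)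
  have h0 := clo_of_acts (ρ := 1 + 1 / 400) hR (le_max_left _ _) (le_max_right _ _) hε
    (hε2.trans (by norm_num)) (hε2.trans (by norm_num)) (hg 0) (hf 0)
  have h1 := clo_of_acts (ρ := 1 + 1 / 400) hR (le_max_left _ _) (le_max_right _ _) hε
    (hε2.trans (by norm_num)) (hε2.trans (by norm_num)) (hg 1) (hf 1)
  have h2 := clo_inv_of_acts (ρ := 1 + 1 / 400) hR (le_max_left _ _) (le_max_right _ _) hε
    (hε2.trans (by norm_num)) (hε2.trans (by norm_num)) (hg 0) (hf 0)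
  have h3 := ((h0.pow hη i).mul hη h1).mul hη (h2.pow hη i)
  rw [inv_pow, inv_pow] at h3
  exact h3.mono (by omega) hη (by norm_num)

theorem crit_pp (W : Subgroup (ℝ ≃ₜ ℝ)) (hW : ∀ f ∈ W, IsPP f) (hs : HasSmallFreePairs W) :
    ∃ W₁ : Subgroup (ℝ ≃ₜ ℝ), W₁ ≤ W ∧ Crit (W₁.map toProj) := by
  classical
  obtain ⟨a, b, hab, hs⟩ := hs
  obtain ⟨R, hRdef⟩ : ∃ R, R = max |a| |b| := ⟨_, rfl⟩
  have hR : 0 ≤ R := by rw [hRdef]; exact (abs_nonneg a).trans (le_max_left _ _)
  obtain ⟨ε, hε, hε1, hε2⟩ : ∃ ε : ℝ, 0 < ε ∧ ε * (1 + R) ^ 2 ≤ (b - a) / 800 / 2 ∧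
      ε * (1 + R) ≤ 1 / 400 := by
    refine ⟨min ((b - a) / 800 / 2) (1 / 400) / (1 + R) ^ 2, ?_, ?_, ?_⟩
    · have : 0 < min ((b - a) / 800 / 2) (1 / 400) := lt_min (by linarith) (by norm_num)
      positivity
    · rw [div_mul_cancel₀ _ (by positivity)]
      exact min_le_left _ _
    · have h1 : min ((b - a) / 800 / 2) (1 / 400) / (1 + R) ^ 2 * (1 + R) =
          min ((b - a) / 800 / 2) (1 / 400) / (1 + R) := by
        field_simp
      rw [h1, div_le_iff₀ (by positivity)]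
      have h2 : min ((b - a) / 800 / 2) (1 / 400) ≤ 1 / 400 := min_le_right _ _
      nlinarith
  obtain ⟨g, hg, hfree, hex⟩ := hs ε hε
  choose f hfW hf using hex
  rw [hRdef] at hε1 hε2
  have hclo := exists_clo hab hε1 hε2 hg hf
  have hinj := lift_conj_injective hfree 100
  set W₁ : Subgroup (ℝ ≃ₜ ℝ) := Subgroup.closure (Set.range f) with hW₁
  have hW₁W : W₁ ≤ W := by
    rw [hW₁, Subgroup.closure_le]
    rintro _ ⟨i, rfl⟩
    exact hfW i
  have hfW₁ : ∀ i, f i ∈ W₁ := fun i => Subgroup.subset_closure ⟨i, rfl⟩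
  have hcount₁ : Countable W₁ := countable_of_closure_range f
  refine ⟨W₁, hW₁W, ?_⟩
  set W' : Subgroup (OnePoint ℝ ≃ₜ OnePoint ℝ) := W₁.map toProj with hW'
  have hcount : Countable W' :=
    (MonoidHom.subgroupMap_surjective toProj W₁).countable
  have hinf : ∀ f ∈ W', f OnePoint.infty = OnePoint.infty := by
    rintro _ ⟨f, -, rfl⟩
    exact toProj_infty f
  have hfin : ∀ f ∈ W', {x | ¬ LocMob f x}.Finite := by
    rintro _ ⟨f, hf, rfl⟩
    exact (hW f (hW₁W hf)).finite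
  let h : Fin 100 → W' := fun i => ⟨toProj (f 0 ^ (i : ℕ) * f 1 * (f 0 ^ (i : ℕ))⁻¹),
    Subgroup.mem_map_of_mem _ (mul_mem (mul_mem (pow_mem (hfW₁ 0) _) (hfW₁ 1))
      (inv_mem (pow_mem (hfW₁ 0) _)))⟩
  let M : Fin 100 → SL(2, ℝ) := fun i => g 0 ^ (i : ℕ) * g 1 * (g 0 ^ (i : ℕ))⁻¹
  obtain ⟨act, J, c, hact, hmeas, hJm, hJ0, hJ, hJint, hc, hcm, hgerm⟩ :=
    exists_cocycle_data W' hinf hfin
  have hreg := countable_compl_regPts W' hfin
  have hregm : MeasurableSet (RegPts W') := by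
    have := hreg.measurableSet
    simpa using this.compl
  set m₀ : Measure (RegPts W') := volume.comap Subtype.val with hm₀
  have hL : 0 < b - a := by linarith
  have hL0 : ENNReal.ofReal (b - a) ≠ 0 := by simpa using hab
  set m : Measure (RegPts W') := (ENNReal.ofReal (b - a))⁻¹ • m₀ with hm
  have hJint' : ∀ (f : W') (F : RegPts W' → ℝ≥0∞), Measurable F →
      ∫⁻ x, F (f • x) * ENNReal.ofReal (J f x) ∂m = ∫⁻ x, F x ∂m := by
    intro f F hF
    rw [hm, lintegral_smul_measure, lintegral_smul_measure, hJint f F hF]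
  have hemb : MeasurableEmbedding (Subtype.val : (RegPts W') → ℝ) :=
    MeasurableEmbedding.subtype_coe hregm
  have hae : (volume : Measure ℝ).restrict (RegPts W') = volume := by
    apply Measure.restrict_eq_self_of_ae_mem
    rw [ae_iff]
    exact hreg.measure_zero volume
  have hmap : m₀.map Subtype.val = volume := by
    rw [hm₀, map_comap_subtype_coe hregm, hae]
  have hIoo : ∀ u v : ℝ, m₀ {x : RegPts W' | (x : ℝ) ∈ Set.Ioo u v} = ENNReal.ofReal (v - u) := by
    intro u v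
    have e1 : m₀ {x : RegPts W' | (x : ℝ) ∈ Set.Ioo u v} = m₀.map Subtype.val (Set.Ioo u v) := by
      rw [hemb.map_apply]
      rfl
    rw [e1, hmap, Real.volume_Ioo]
  set Ω : Set (RegPts W') := {x | (x : ℝ) ∈ Set.Ioo a b} with hΩ
  have hΩm : MeasurableSet Ω := measurable_subtype_coe measurableSet_Ioo
  have hΩ1 : m Ω = 1 := by
    rw [hm, Measure.smul_apply, hΩ, hIoo, smul_eq_mul]
    exact ENNReal.inv_mul_cancel hL0 ENNReal.ofReal_ne_top
  refine crit_of_cocycle m hmeas J hJm hJ0 hJ hJint' c hc hcm Ω hΩm hΩ1 (n := 100) (by norm_num)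
    (FreeGroup.lift (fun i : Fin 100 => mobPerm (M i))) hinj h 25 ?_ ?_
  · have e1 : Real.sqrt ((100 : ℕ) : ℝ) = 10 := by
      rw [show (((100 : ℕ) : ℝ)) = 10 ^ 2 by norm_num]; exact Real.sqrt_sq (by norm_num)
    rw [e1]; norm_num
  · have key : ∀ i : Fin 100, (1 / 4 : ℝ) ≤
        ∫ x in {x | x ∈ Ω ∧ h i • x ∈ Ω ∧
          c (h i) x = FreeGroup.lift (fun i : Fin 100 => mobPerm (M i)) (FreeGroup.of i)},
        Real.sqrt (J (h i) x) ∂m := by
      intro i
      set B : Set (RegPts W') := {x | x ∈ Ω ∧ h i • x ∈ Ω ∧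
          c (h i) x = FreeGroup.lift (fun i : Fin 100 => mobPerm (M i)) (FreeGroup.of i)} with hB
      set η : ℝ := (b - a) / 800 with hη
      set S : Set (RegPts W') := {x | (x : ℝ) ∈ Set.Ioo (a + (199 : ℕ) * η) (b - (199 : ℕ) * η)}
        with hS
      have hSm : MeasurableSet S := measurable_subtype_coe measurableSet_Ioo
      have hBm : MeasurableSet B :=
        hΩm.inter ((hmeas (h i) hΩm).inter (hcm (h i) _))
      have hloc : ∀ x ∈ S, c (h i) x = mobPerm (M i) ∧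
          (1 / 2 : ℝ) ≤ Real.sqrt (J (h i) x) ∧ h i • x ∈ Ω := by
        intro x hx
        obtain ⟨h1, h2, h3, h4⟩ := hclo i i.2 x hx
        have hev : ∀ᶠ y in 𝓝 (x : ℝ), (f 0 ^ (i : ℕ) * f 1 * (f 0 ^ (i : ℕ))⁻¹) y =
            ((M i) 0 0 * y + (M i) 0 1) / ((M i) 1 0 * y + (M i) 1 1) := by
          filter_upwards [isOpen_Ioo.mem_nhds hx] with y hy
          exact (hclo i i.2 y hy).2.1
        obtain ⟨e1, e2, e3⟩ := hgerm (h i) x (M i) (germ_of h1 hev)
        refine ⟨e1, ?_, ?_⟩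
        · rw [e3]
          apply Real.le_sqrt_of_sq_le
          have h5 : |(M i) 1 0 * (x : ℝ) + (M i) 1 1| ≤ 2 := by
            refine h4.trans ?_
            have h6 : ((1 : ℝ) + 1 / 400) ^ 199 ≤ 2 := by norm_num
            exact h6
          have h7 : 0 < ((M i) 1 0 * (x : ℝ) + (M i) 1 1) ^ 2 := by positivity
          rw [le_div_iff₀ h7]
          have h8 := sq_abs ((M i) 1 0 * (x : ℝ) + (M i) 1 1)
          nlinarith [abs_nonneg ((M i) 1 0 * (x : ℝ) + (M i) 1 1)]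
        · have e5 := hact (h i) x
          have e6 : ((h i • x : RegPts W') : ℝ) = (f 0 ^ (i : ℕ) * f 1 * (f 0 ^ (i : ℕ))⁻¹) x :=
            OnePoint.coe_injective e5
          have h3' := abs_le.1 h3
          rw [hΩ]
          change ((h i • x : RegPts W') : ℝ) ∈ Set.Ioo a b
          rw [e6]
          have hx1 : a + (199 : ℕ) * η < (x : ℝ) := hx.1
          have hx2 : (x : ℝ) < b - (199 : ℕ) * η := hx.2
          obtain ⟨k1, k2⟩ := h3'
          generalize (f 0 ^ (i : ℕ) * f 1 * (f 0 ^ (i : ℕ))⁻¹) (x : ℝ) = y at k1 k2 ⊢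
          constructor
          · linarith
          · linarith
      have hη0 : 0 < η := by rw [hη]; linarith
      have hSB : S ⊆ B := by
        intro x hx
        obtain ⟨h1, h2, h3⟩ := hloc x hx
        have hx' : (x : ℝ) ∈ Set.Ioo (a + (199 : ℕ) * η) (b - (199 : ℕ) * η) := hx
        refine ⟨⟨?_, ?_⟩, h3, ?_⟩
        · have := hx'.1
          push_cast at this
          linarith
        · have := hx'.2
          push_cast at this
          linarith
        · rw [h1, FreeGroup.lift_apply_of]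
      have hmS : m S = ENNReal.ofReal (1 / 2 + 1 / 400) := by
        rw [hm, Measure.smul_apply, hS, hIoo, smul_eq_mul]
        have e1 : b - (199 : ℕ) * η - (a + (199 : ℕ) * η) = (b - a) * (1 / 2 + 1 / 400) := by
          rw [hη]; push_cast; ring
        rw [e1, ENNReal.ofReal_mul hL.le, ← mul_assoc,
          ENNReal.inv_mul_cancel hL0 ENNReal.ofReal_ne_top, one_mul]
      have hint := integrable_sqrt m J hJm hJ0 hJint' Ω hΩm hΩ1 (h i) B hBm
        (fun x hx => hx.1) (fun x hx => hx.2.1)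
      have hmS' : m.real S = 1 / 2 + 1 / 400 := by
        rw [Measure.real, hmS, ENNReal.toReal_ofReal (by norm_num)]
      have hSfin : m S ≠ ⊤ := by rw [hmS]; exact ENNReal.ofReal_ne_top
      calc (1 / 4 : ℝ) ≤ (1 / 2) * m.real S := by rw [hmS']; norm_num
        _ = ∫ x in S, (1 / 2 : ℝ) ∂m := by
            rw [setIntegral_const, smul_eq_mul, mul_comm]
        _ ≤ ∫ x in S, Real.sqrt (J (h i) x) ∂m := by
            refine setIntegral_mono_on (integrableOn_const hSfin) (hint.mono_set hSB) hSm ?_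
            intro x hx
            exact (hloc x hx).2.1
        _ ≤ ∫ x in B, Real.sqrt (J (h i) x) ∂m :=
            setIntegral_mono_set hint (ae_of_all _ fun x => Real.sqrt_nonneg _)
              (Filter.Eventually.of_forall hSB)
    calc (25 : ℝ) = ∑ i : Fin 100, (1 / 4 : ℝ) := by
          rw [Finset.sum_const, Finset.card_univ, Fintype.card_fin]; norm_num
      _ ≤ _ := Finset.sum_le_sum fun i _ => key i

theorem pp_final (W : Subgroup (ℝ ≃ₜ ℝ)) (hW : ∀ f ∈ W, IsPP f) (hs : HasSmallFreePairs W)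
    (Γ : Type) [Group Γ] (hΓ : HasSubquotient Γ W) : FullNotExact Γ := by
  obtain ⟨W₁, hW₁, hcrit⟩ := crit_pp W hW hs
  refine ⟨exists_fullCstar Γ, fun A' _ u hu => not_exact_of_crit hcrit (hΓ.trans ?_) A' u hu⟩
  refine ⟨W₁.subgroupOf W, (toProj.subgroupMap W₁).comp
    (Subgroup.subgroupOfEquivOfLe hW₁).toMonoidHom, ?_⟩
  exact (MonoidHom.subgroupMap_surjective toProj W₁).comp
    (Subgroup.subgroupOfEquivOfLe hW₁).surjective

end Pool.Agent.Helper59.PP
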