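import Pool.Agent.Helper59.PP.Pw
import Pool.Agent.Helper59.EX.St.M3

/-!
# The group of Lodha and Moore has small free pairs
-/

open Topology
open scoped MatrixGroups

namespace Pool.Agent.Helper59.PP

open Pool.Agent.Helper59.EX (zmat mobPerm)

/-! ### the homeomorphisms `a`, `b`, `c` -/

theorem lmB_mono : StrictMono lmB := by
  have h0 : StrictMonoOn lmB (Set.Iic 0) := by
    intro s hs t ht hst
    rw [lmB_0 hs, lmB_0 ht]
    exact hst
  have h1 : StrictMonoOn lmB (Set.Icc 0 (1 / 2)) := by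
    intro s hs t ht hst
    rw [lmB_1 hs.1 hs.2, lmB_1 ht.1 ht.2]
    have k1 : 0 < 1 - s := by linarith [hs.2]
    have k2 : 0 < 1 - t := by linarith [ht.2]
    rw [div_lt_div_iff₀ k1 k2]
    nlinarith
  have h2 : StrictMonoOn lmB (Set.Icc (1 / 2) 1) := by
    intro s hs t ht hst
    rw [lmB_2 hs.1 hs.2, lmB_2 ht.1 ht.2]
    have k1 : 0 < s := by linarith [hs.1]
    have := one_div_lt_one_div_of_lt k1 hst
    linarith
  have h3 : StrictMonoOn lmB (Set.Ici 1) := by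
    intro s hs t ht hst
    rw [lmB_3 hs, lmB_3 ht]
    linarith
  have e1 : StrictMonoOn lmB (Set.Iic (1 / 2)) := by
    have := h0.union h1 isGreatest_Iic (isLeast_Icc (by norm_num))
    rwa [Set.Iic_union_Icc_eq_Iic (by norm_num)] at this
  have e2 : StrictMonoOn lmB (Set.Iic 1) := by
    have := e1.union h2 isGreatest_Iic (isLeast_Icc (by norm_num))
    rwa [Set.Iic_union_Icc_eq_Iic (by norm_num)] at this
  exact e2.Iic_union_Ici h3

theorem lmC_mono : StrictMono lmC := by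
  have h0 : StrictMonoOn lmC (Set.Iic 0) := by
    intro s hs t ht hst
    rw [lmC_0 hs, lmC_0 ht]
    exact hst
  have h1 : StrictMonoOn lmC (Set.Icc 0 1) := by
    intro s hs t ht hst
    rw [lmC_1 hs.1 hs.2, lmC_1 ht.1 ht.2]
    have k1 : 0 < 1 + s := by linarith [hs.1]
    have k2 : 0 < 1 + t := by linarith [ht.1]
    rw [div_lt_div_iff₀ k1 k2]
    nlinarith
  have h3 : StrictMonoOn lmC (Set.Ici 1) := by
    intro s hs t ht hst
    rw [lmC_2 hs, lmC_2 ht]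
    exact hst
  have e1 : StrictMonoOn lmC (Set.Iic 1) := by
    have := h0.union h1 isGreatest_Iic (isLeast_Icc (by norm_num))
    rwa [Set.Iic_union_Icc_eq_Iic (by norm_num)] at this
  exact e1.Iic_union_Ici h3

/-- on `[0, 1]` the inverse of `b` is `s / (1 + s)` -/
theorem lmB_inv1 {s : ℝ} (h0 : 0 ≤ s) (h1 : s ≤ 1) : lmB (s / (1 + s)) = s := by
  have hs : 0 < 1 + s := by linarith
  have e : 1 - s / (1 + s) = 1 / (1 + s) := by field_simp; ring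
  rw [lmB_1 (by positivity) (by rw [div_le_iff₀ hs]; linarith), e]
  field_simp

/-- on `[1, 2]` the inverse of `b` is `1 / (3 - s)` -/
theorem lmB_inv2 {s : ℝ} (h0 : 1 ≤ s) (h1 : s ≤ 2) : lmB (1 / (3 - s)) = s := by
  have hs : 0 < 3 - s := by linarith
  rw [lmB_2 (by rw [div_le_div_iff₀ (by norm_num) hs]; linarith)
    (by rw [div_le_iff₀ hs]; linarith), one_div_one_div]
  ring

/-- on `[0, 1]` the inverse of `c` is `s / (2 - s)` -/
theorem lmC_inv {s : ℝ} (h0 : 0 ≤ s) (h1 : s ≤ 1) : lmC (s / (2 - s)) = s := by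
  have hs : 0 < 2 - s := by linarith
  have e : 1 + s / (2 - s) = 2 / (2 - s) := by field_simp; ring
  rw [lmC_1 (by positivity) (by rw [div_le_iff₀ hs]; linarith), e]
  field_simp

theorem lmB_surj : Function.Surjective lmB := by
  intro s
  rcases le_total s 0 with h | h
  · exact ⟨s, lmB_0 h⟩
  rcases le_total s 1 with h1 | h1
  · exact ⟨_, lmB_inv1 h h1⟩
  rcases le_total s 2 with h2 | h2
  · exact ⟨_, lmB_inv2 h1 h2⟩
  · exact ⟨s - 1, by rw [lmB_3 (by linarith)]; ring⟩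

theorem lmC_surj : Function.Surjective lmC := by
  intro s
  rcases le_total s 0 with h | h
  · exact ⟨s, lmC_0 h⟩
  rcases le_total s 1 with h1 | h1
  · exact ⟨_, lmC_inv h h1⟩
  · exact ⟨s, lmC_2 h1⟩

/-- the generator `a` -/
noncomputable def ga : ℝ ≃ₜ ℝ := Homeomorph.addRight 1
/-- the generator `b` -/
noncomputable def gb : ℝ ≃ₜ ℝ := (StrictMono.orderIsoOfSurjective lmB lmB_mono lmB_surj).toHomeomorph
/-- the generator `c` -/
noncomputable def gc : ℝ ≃ₜ ℝ := (StrictMono.orderIsoOfSurjective lmC lmC_mono lmC_surj).toHomeomorph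

theorem ga_apply (t : ℝ) : ga t = t + 1 := rfl
theorem gb_apply (t : ℝ) : gb t = lmB t := rfl
theorem gc_apply (t : ℝ) : gc t = lmC t := rfl

theorem ga_mem : ga ∈ LodhaMoore := Subgroup.subset_closure (Or.inl ga_apply)
theorem gb_mem : gb ∈ LodhaMoore := Subgroup.subset_closure (Or.inr (Or.inl gb_apply))
theorem gc_mem : gc ∈ LodhaMoore := Subgroup.subset_closure (Or.inr (Or.inr gc_apply))

theorem inv_eq {f : ℝ ≃ₜ ℝ} {s t : ℝ} (h : f t = s) : f⁻¹ s = t := by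
  change f.symm s = t
  rw [← h]
  exact f.symm_apply_apply t

theorem gb_inv1 {s : ℝ} (h0 : 0 ≤ s) (h1 : s ≤ 1) : gb⁻¹ s = s / (1 + s) := inv_eq (lmB_inv1 h0 h1)
theorem gb_inv2 {s : ℝ} (h0 : 1 ≤ s) (h1 : s ≤ 2) : gb⁻¹ s = 1 / (3 - s) := inv_eq (lmB_inv2 h0 h1)
theorem gc_inv {s : ℝ} (h0 : 0 ≤ s) (h1 : s ≤ 1) : gc⁻¹ s = s / (2 - s) := inv_eq (lmC_inv h0 h1)

/-! ### conjugation by a map which doubles near a fixed point -/

theorem conj_pow {D q : ℝ ≃ₜ ℝ} (s : ℝ → ℝ) (hD : ∀ v, 0 ≤ v → v ≤ 1 / 2 → D (s v) = s (2 * v))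
    (hq : ∀ v, 0 ≤ v → v ≤ 1 → q (s v) = s (v / (1 + v))) (n : ℕ) :
    ∀ v, 0 ≤ v → v ≤ 1 → (D ^ n * q * (D ^ n)⁻¹) (s v) = s (v / (1 + v / 2 ^ n)) := by
  induction n with
  | zero =>
    intro v h0 h1
    simpa using hq v h0 h1
  | succ n ih =>
    intro v h0 h1
    have e1 : D ^ (n + 1) * q * (D ^ (n + 1))⁻¹ = D * (D ^ n * q * (D ^ n)⁻¹) * D⁻¹ := by
      rw [pow_succ']
      group
    have e2 : D⁻¹ (s v) = s (v / 2) := by
      apply inv_eq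
      rw [hD (v / 2) (by linarith) (by linarith)]
      congr 1
      ring
    have hτ : (0 : ℝ) < 2 ^ n := by positivity
    have hpos : 0 < 1 + v / 2 / 2 ^ n := by positivity
    rw [e1]
    change D ((D ^ n * q * (D ^ n)⁻¹) (D⁻¹ (s v))) = _
    rw [e2, ih (v / 2) (by linarith) (by linarith), hD]
    · congr 1
      rw [pow_succ]
      field_simp
    · positivity
    · rw [div_le_iff₀ hpos]
      have : 0 ≤ v / 2 / 2 ^ n := by positivity
      nlinarith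

/-- the doubling near `0` -/
noncomputable def dd : ℝ ≃ₜ ℝ := gb * gc * gb⁻¹

theorem dd_apply {u : ℝ} (h0 : 0 ≤ u) (h1 : u ≤ 1 / 2) : dd u = 2 * u := by
  have hu : 0 < 1 + u := by linarith
  have h2u : 0 < 1 + 2 * u := by linarith
  change gb (gc (gb⁻¹ u)) = _
  rw [gb_inv1 h0 (by linarith), gc_apply,
    lmC_1 (by positivity) (by rw [div_le_iff₀ hu]; linarith), gb_apply]
  have e : 2 * (u / (1 + u)) / (1 + u / (1 + u)) = 2 * u / (1 + 2 * u) := by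
    have : 1 + u / (1 + u) = (1 + 2 * u) / (1 + u) := by field_simp; ring
    rw [this]
    field_simp
  rw [e]
  exact lmB_inv1 (by linarith) (by linarith)

/-- the parabolic map with fixed point `1` -/
noncomputable def pp : ℝ ≃ₜ ℝ := gb⁻¹ * ga

theorem pp_apply {t : ℝ} (h0 : 0 ≤ t) (h1 : t ≤ 1) : pp t = 1 / (2 - t) := by
  change gb⁻¹ (ga t) = _
  rw [ga_apply, gb_inv2 (by linarith) (by linarith)]
  congr 1
  ring

/-- the doubling near `1` -/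
noncomputable def ee : ℝ ≃ₜ ℝ := pp⁻¹ * gc⁻¹ * pp

theorem ee_apply {v : ℝ} (h0 : 0 ≤ v) (h1 : v ≤ 1 / 2) : ee (1 - v) = 1 - 2 * v := by
  have hv : 0 < 1 + v := by linarith
  have h2v : 0 < 1 + 2 * v := by linarith
  change pp⁻¹ (gc⁻¹ (pp (1 - v))) = _
  apply inv_eq
  rw [pp_apply (by linarith) (by linarith), pp_apply (by linarith) (by linarith)]
  have e1 : (1 : ℝ) / (2 - (1 - v)) = 1 / (1 + v) := by congr 1; ring
  have e2 : (1 : ℝ) / (2 - (1 - 2 * v)) = 1 / (1 + 2 * v) := by congr 1; ring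
  rw [e1, e2, gc_inv (by positivity) (by rw [div_le_iff₀ hv]; linarith)]
  have e3 : 2 - 1 / (1 + v) = (1 + 2 * v) / (1 + v) := by field_simp; ring
  rw [e3]
  field_simp

/-- the element `x` acting as `X` -/
noncomputable def gx (n : ℕ) : ℝ ≃ₜ ℝ := ee ^ n * pp * (ee ^ n)⁻¹
/-- the element `y` acting as `Y` -/
noncomputable def gy (n : ℕ) : ℝ ≃ₜ ℝ := dd ^ n * gb⁻¹ * (dd ^ n)⁻¹

theorem dd_mem : dd ∈ LodhaMoore := mul_mem (mul_mem gb_mem gc_mem) (inv_mem gb_mem)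
theorem pp_mem : pp ∈ LodhaMoore := mul_mem (inv_mem gb_mem) ga_mem
theorem ee_mem : ee ∈ LodhaMoore := mul_mem (mul_mem (inv_mem pp_mem) (inv_mem gc_mem)) pp_mem
theorem gx_mem (n : ℕ) : gx n ∈ LodhaMoore :=
  mul_mem (mul_mem (pow_mem ee_mem n) pp_mem) (inv_mem (pow_mem ee_mem n))
theorem gy_mem (n : ℕ) : gy n ∈ LodhaMoore :=
  mul_mem (mul_mem (pow_mem dd_mem n) (inv_mem gb_mem)) (inv_mem (pow_mem dd_mem n))

/-- the matrix of `x` -/
def mX (τ : ℝ) : SL(2, ℝ) := ⟨!![1 - τ, τ; -τ, 1 + τ], by rw [Matrix.det_fin_two_of]; ring⟩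
/-- the matrix of `y` -/
def mY (τ : ℝ) : SL(2, ℝ) := ⟨!![1, 0; τ, 1], by rw [Matrix.det_fin_two_of]; ring⟩

theorem gx_acts (n : ℕ) : ActsAs (gx n) (mX ((2 : ℝ) ^ n)⁻¹) 0 1 := by
  intro t ht
  have hτ : (0 : ℝ) < 2 ^ n := by positivity
  have h := conj_pow (D := ee) (q := pp) (fun v => 1 - v) (fun v h0 h1 => ee_apply h0 h1)
    (fun v h0 h1 => by
      have hv : 0 < 1 + v := by linarith
      rw [pp_apply (by linarith) (by linarith)]
      have e1 : (1 : ℝ) / (2 - (1 - v)) = 1 / (1 + v) := by congr 1; ring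
      rw [e1]
      field_simp
      ring) n (1 - t) (by linarith [ht.2]) (by linarith [ht.1])
  simp only [sub_sub_cancel] at h
  have hpos : 0 < 1 + (1 - t) / 2 ^ n := by
    have : 0 < 1 - t := by linarith [ht.2]
    positivity
  change (gx n) t = ((1 - ((2 : ℝ) ^ n)⁻¹) * t + ((2 : ℝ) ^ n)⁻¹) /
    (-((2 : ℝ) ^ n)⁻¹ * t + (1 + ((2 : ℝ) ^ n)⁻¹))
  have e : -((2 : ℝ) ^ n)⁻¹ * t + (1 + ((2 : ℝ) ^ n)⁻¹) = 1 + (1 - t) / 2 ^ n := by
    field_simp
    ring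
  unfold gx
  rw [h, e, eq_div_iff hpos.ne', sub_mul, div_mul_cancel₀ _ hpos.ne']
  field_simp
  ring

theorem gy_acts (n : ℕ) : ActsAs (gy n) (mY ((2 : ℝ) ^ n)⁻¹) 0 1 := by
  intro t ht
  have hτ : (0 : ℝ) < 2 ^ n := by positivity
  have h := conj_pow (D := dd) (q := gb⁻¹) (fun v => v) (fun v h0 h1 => dd_apply h0 h1)
    (fun v h0 h1 => gb_inv1 h0 h1) n t ht.1.le ht.2.le
  change (gy n) t = (1 * t + 0) / (((2 : ℝ) ^ n)⁻¹ * t + 1)
  unfold gy
  rw [h, one_mul, add_zero]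
  congr 1
  field_simp
  ring

/-! ### the matrices -/

/-- the conjugating matrix -/
def mT : SL(2, ℝ) := ⟨!![1, 0; 1, 1], by rw [Matrix.det_fin_two_of]; ring⟩

/-- the pair of matrices -/
def mP (τ : ℝ) (i : Fin 2) : SL(2, ℝ) := mT * zmat τ (i : ℕ) * mT⁻¹

/-- the pair of homeomorphisms -/
noncomputable def hP (n : ℕ) (i : Fin 2) : ℝ ≃ₜ ℝ :=
  if i = 0 then gx n * gy n else gx n ^ 2 * (gx n * gy n) * (gx n)⁻¹ ^ 2

theorem mP_zero (τ : ℝ) : mP τ 0 = mX τ * mY τ := by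
  unfold mP
  rw [mul_inv_eq_iff_eq_mul]
  ext i j
  fin_cases i <;> fin_cases j <;>
    simp [mT, zmat, mX, mY, Matrix.mul_apply, Fin.sum_univ_two] <;> ring

theorem mP_one (τ : ℝ) : mP τ 1 = mX τ ^ 2 * (mX τ * mY τ) * (mX τ)⁻¹ ^ 2 := by
  unfold mP
  rw [inv_pow, eq_mul_inv_iff_mul_eq]
  ext i j
  fin_cases i <;> fin_cases j <;>
    simp [mT, zmat, mX, mY, sq, Matrix.mul_apply, Fin.sum_univ_two, Matrix.adjugate_fin_two] <;>
    ring

theorem mP_near {τ : ℝ} (h0 : 0 ≤ τ) (h1 : τ ≤ 1) (i : Fin 2) : NearOne (20 * τ) (mP τ i) := by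
  have h2 : τ ^ 2 ≤ τ := by nlinarith
  have h3 : τ ^ 3 ≤ τ := by nlinarith [pow_nonneg h0 2]
  have h3' : 0 ≤ τ ^ 3 := pow_nonneg h0 3
  have h2' : 0 ≤ τ ^ 2 := pow_nonneg h0 2
  have hi : ((i : ℕ) : ℝ) = 0 ∨ ((i : ℕ) : ℝ) = 1 := by
    fin_cases i <;> simp
  refine ⟨?_, ?_, ?_, ?_⟩ <;>
  · rw [abs_le]
    simp [mP, mT, zmat, Matrix.mul_apply, Fin.sum_univ_two, Matrix.adjugate_fin_two]
    rcases hi with hi | hi <;> rw [hi] <;> constructor <;> nlinarith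

theorem padic_norm_two (m : ℕ) (hm : 1 ≤ m) : (m : ℝ)⁻¹ ≤ ‖(m : ℚ_[2])‖ := by
  obtain ⟨k, u, hu, hmu⟩ := Nat.exists_eq_pow_mul_and_not_dvd (n := m) (by omega) 2
    (by norm_num)
  have hu1 : ‖(u : ℚ_[2])‖ = 1 := by
    have h1 : ‖((u : ℤ) : ℚ_[2])‖ ≤ 1 := Padic.norm_int_le_one (u : ℤ)
    have h2 : ¬ ‖((u : ℤ) : ℚ_[2])‖ < 1 := by
      rw [Padic.norm_intCast_lt_one_iff]
      intro h
      exact hu (Int.natCast_dvd_natCast.1 h)
    have h3 : ‖((u : ℤ) : ℚ_[2])‖ = 1 := le_antisymm h1 (not_lt.1 h2)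
    simpa using h3
  have hnorm : ‖(m : ℚ_[2])‖ = ((2 : ℝ) ^ k)⁻¹ := by
    rw [hmu]
    push_cast
    rw [norm_mul, hu1, mul_one, norm_pow]
    have := Padic.norm_p (p := 2)
    push_cast at this
    rw [this, inv_pow]
  rw [hnorm]
  have hpk : 0 < (2 : ℝ) ^ k := by positivity
  have hle : (2 : ℝ) ^ k ≤ (m : ℝ) := by
    have hupos : 0 < u := by
      rcases Nat.eq_zero_or_pos u with h | h
      · exact absurd (h ▸ dvd_zero 2) hu
      · exact h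
    have : 2 ^ k ≤ m := by
      rw [hmu]
      exact Nat.le_mul_of_pos_right _ hupos
    exact_mod_cast this
  exact inv_anti₀ hpk hle

theorem mP_free (n : ℕ) (hn : 5 ≤ n) :
    Function.Injective (FreeGroup.lift (mP ((2 : ℝ) ^ n)⁻¹)) := by
  have h0 := Pool.Agent.Helper59.EX.free_mob (n := 2) le_rfl (((2 : ℝ) ^ n)⁻¹)
    (((2 : ℚ_[2]) ^ n)⁻¹) padic_norm_two ?_ ?_
  · have e1 : FreeGroup.lift (fun i : Fin 2 => mobPerm (zmat ((2 : ℝ) ^ n)⁻¹ (i : ℕ))) =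
        (mobPerm : SL(2, ℝ) →* Equiv.Perm (OnePoint ℝ)).comp
          (FreeGroup.lift (fun i : Fin 2 => zmat ((2 : ℝ) ^ n)⁻¹ (i : ℕ))) := by
      ext i : 1
      simp
    rw [e1] at h0
    have h1 : Function.Injective (FreeGroup.lift (fun i : Fin 2 => zmat ((2 : ℝ) ^ n)⁻¹ (i : ℕ))) :=
      Function.Injective.of_comp (f := (mobPerm : SL(2, ℝ) →* Equiv.Perm (OnePoint ℝ)))
        (by rw [MonoidHom.coe_comp] at h0; exact h0)
    have e2 : FreeGroup.lift (mP ((2 : ℝ) ^ n)⁻¹) = (MulAut.conj mT).toMonoidHom.comp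
        (FreeGroup.lift (fun i : Fin 2 => zmat ((2 : ℝ) ^ n)⁻¹ (i : ℕ))) := by
      ext i : 1
      simp [mP]
    rw [e2]
    exact (MulAut.conj mT).injective.comp h1
  · have h2 := Padic.norm_p (p := 2)
    push_cast at h2
    rw [norm_inv, norm_pow, h2, inv_pow, inv_inv]
    have : (2 : ℝ) ^ 5 ≤ 2 ^ n := pow_le_pow_right₀ (by norm_num) hn
    push_cast
    linarith
  · intro P hP
    have h1 : ((2 : ℝ) ^ n)⁻¹ = algebraMap ℚ ℝ (((2 : ℚ) ^ n)⁻¹) := by simp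
    have h2 : ((2 : ℚ_[2]) ^ n)⁻¹ = algebraMap ℚ ℚ_[2] (((2 : ℚ) ^ n)⁻¹) := by simp
    rw [h1, Polynomial.aeval_algebraMap_apply] at hP
    rw [h2, Polynomial.aeval_algebraMap_apply]
    have h3 : Polynomial.aeval (((2 : ℚ) ^ n)⁻¹) P = 0 := by
      apply (algebraMap ℚ ℝ).injective
      rw [hP, map_zero]
    rw [h3, map_zero]

theorem mX_near {τ : ℝ} (h0 : 0 ≤ τ) : NearOne τ (mX τ) := by
  refine ⟨?_, ?_, ?_, ?_⟩ <;> simp [mX, abs_of_nonneg h0]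

theorem mY_near {τ : ℝ} (h0 : 0 ≤ τ) : NearOne τ (mY τ) := by
  refine ⟨?_, ?_, ?_, ?_⟩ <;> simp [mY, abs_of_nonneg h0, h0]

theorem hP_acts {n : ℕ} (hn : 8 ≤ n) (i : Fin 2) :
    ActsAs (hP n i) (mP ((2 : ℝ) ^ n)⁻¹ i) (1 / 4) (3 / 4) := by
  have hτ0 : (0 : ℝ) < ((2 : ℝ) ^ n)⁻¹ := by positivity
  have hτ : ((2 : ℝ) ^ n)⁻¹ ≤ 1 / 256 := by
    have : (2 : ℝ) ^ 8 ≤ 2 ^ n := pow_le_pow_right₀ (by norm_num) hn
    rw [inv_le_comm₀ (by positivity) (by norm_num)]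
    norm_num at this ⊢
    exact this
  have hη : (0 : ℝ) ≤ 1 / 32 := by norm_num
  have hX := clo_of_acts (a := 0) (b := 1) (η := 1 / 32) (ρ := 2) (ε := ((2 : ℝ) ^ n)⁻¹) (R := 1)
    zero_le_one (by simp) (by simp) (by linarith) (by linarith) (by linarith) (mX_near hτ0.le)
    (gx_acts n)
  have hXi := clo_inv_of_acts (a := 0) (b := 1) (η := 1 / 32) (ρ := 2) (ε := ((2 : ℝ) ^ n)⁻¹)
    (R := 1) zero_le_one (by simp) (by simp) (by linarith) (by linarith) (by linarith)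
    (mX_near hτ0.le) (gx_acts n)
  have hY := clo_of_acts (a := 0) (b := 1) (η := 1 / 32) (ρ := 2) (ε := ((2 : ℝ) ^ n)⁻¹) (R := 1)
    zero_le_one (by simp) (by simp) (by linarith) (by linarith) (by linarith) (mY_near hτ0.le)
    (gy_acts n)
  have h1 := hX.mul hη hY
  have h2 := ((hX.pow hη 2).mul hη h1).mul hη (hXi.pow hη 2)
  have key : Clo 0 1 (1 / 32) 2 6 (hP n i) (mP ((2 : ℝ) ^ n)⁻¹ i) := by
    fin_cases i
    · simp only [Fin.zero_eta, hP, if_true, mP_zero]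
      exact h1.mono (by norm_num) hη (by norm_num)
    · simp only [Fin.mk_one, hP, mP_one, if_neg (one_ne_zero : (1 : Fin 2) ≠ 0)]
      exact h2.mono (by norm_num) hη (by norm_num)
  intro x hx
  refine (key x ⟨?_, ?_⟩).2.1
  · push_cast
    linarith [hx.1]
  · push_cast
    linarith [hx.2]

theorem hP_mem (n : ℕ) (i : Fin 2) : hP n i ∈ LodhaMoore := by
  unfold hP
  split_ifs
  · exact mul_mem (gx_mem n) (gy_mem n)
  · exact mul_mem (mul_mem (pow_mem (gx_mem n) 2) (mul_mem (gx_mem n) (gy_mem n)))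
      (pow_mem (inv_mem (gx_mem n)) 2)

theorem lodhaMoore_small : HasSmallFreePairs LodhaMoore := by
  refine ⟨1 / 4, 3 / 4, by norm_num, fun ε hε => ?_⟩
  obtain ⟨n, hn⟩ := exists_pow_lt_of_lt_one (show 0 < ε / 20 by positivity)
    (show (1 / 2 : ℝ) < 1 by norm_num)
  have hτ0 : (0 : ℝ) < ((2 : ℝ) ^ (n + 8))⁻¹ := by positivity
  have hτ1 : ((2 : ℝ) ^ (n + 8))⁻¹ ≤ 1 := by
    apply inv_le_one_of_one_le₀
    exact one_le_pow₀ (by norm_num)
  have hτ : 20 * ((2 : ℝ) ^ (n + 8))⁻¹ ≤ ε := by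
    have h1 : ((2 : ℝ) ^ (n + 8))⁻¹ ≤ (1 / 2) ^ n := by
      rw [← inv_pow, ← one_div]
      exact pow_le_pow_of_le_one (by norm_num) (by norm_num) (by omega)
    linarith
  refine ⟨mP ((2 : ℝ) ^ (n + 8))⁻¹, fun i => ?_, mP_free (n + 8) (by omega), fun i =>
    ⟨hP (n + 8) i, hP_mem _ i, hP_acts (by omega) i⟩⟩
  obtain ⟨k1, k2, k3, k4⟩ := mP_near hτ0.le hτ1 i
  exact ⟨k1.trans hτ, k2.trans hτ, k3.trans hτ, k4.trans hτ⟩

end Pool.Agent.Helper59.PP
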