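import Pool.Agent.Helper59.PP.Defs

/-!
# Homeomorphisms which are close to the identity on an interval
-/

open Topology
open scoped MatrixGroups

namespace Pool.Agent.Helper59.PP

theorem det_eq (g : SL(2, ℝ)) : g 0 0 * g 1 1 - g 0 1 * g 1 0 = 1 := by
  have := g.det_coe
  rwa [Matrix.det_fin_two] at this

theorem inv00 (g : SL(2, ℝ)) : (g⁻¹ : SL(2, ℝ)) 0 0 = g 1 1 := by
  rw [Matrix.SpecialLinearGroup.SL2_inv_expl]; rfl
theorem inv01 (g : SL(2, ℝ)) : (g⁻¹ : SL(2, ℝ)) 0 1 = -g 0 1 := by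
  rw [Matrix.SpecialLinearGroup.SL2_inv_expl]; rfl
theorem inv10 (g : SL(2, ℝ)) : (g⁻¹ : SL(2, ℝ)) 1 0 = -g 1 0 := by
  rw [Matrix.SpecialLinearGroup.SL2_inv_expl]; rfl
theorem inv11 (g : SL(2, ℝ)) : (g⁻¹ : SL(2, ℝ)) 1 1 = g 0 0 := by
  rw [Matrix.SpecialLinearGroup.SL2_inv_expl]; rfl

theorem mul_apply2 (g h : SL(2, ℝ)) (i j : Fin 2) :
    (g * h) i j = g i 0 * h 0 j + g i 1 * h 1 j := by
  rw [Matrix.SpecialLinearGroup.coe_mul, Matrix.mul_apply, Fin.sum_univ_two]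

/-- On `(a + k η, b - k η)` the homeomorphism `w` is given by `M`, moves points by at most `k η`, and
the denominators are between `0` and `ρ^k` in absolute value. -/
def Clo (a b η ρ : ℝ) (k : ℕ) (w : ℝ ≃ₜ ℝ) (M : SL(2, ℝ)) : Prop :=
  ∀ x ∈ Set.Ioo (a + k * η) (b - k * η),
    M 1 0 * x + M 1 1 ≠ 0 ∧ w x = (M 0 0 * x + M 0 1) / (M 1 0 * x + M 1 1) ∧
      |w x - x| ≤ k * η ∧ |M 1 0 * x + M 1 1| ≤ ρ ^ k

variable {a b η ρ : ℝ}

theorem Clo.one (a b η ρ : ℝ) : Clo a b η ρ 0 1 1 := by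
  intro x _
  refine ⟨by simp, ?_, ?_, ?_⟩
  · simp
  · simp
  · simp

theorem Clo.mono {k l : ℕ} (hkl : k ≤ l) (hη : 0 ≤ η) (hρ : 1 ≤ ρ) {w : ℝ ≃ₜ ℝ} {M : SL(2, ℝ)}
    (h : Clo a b η ρ k w M) : Clo a b η ρ l w M := by
  intro x hx
  have hkl' : (k : ℝ) * η ≤ l * η := mul_le_mul_of_nonneg_right (by exact_mod_cast hkl) hη
  obtain ⟨h1, h2, h3, h4⟩ := h x ⟨by linarith [hx.1], by linarith [hx.2]⟩
  exact ⟨h1, h2, h3.trans hkl', h4.trans (pow_le_pow_right₀ hρ hkl)⟩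

theorem Clo.mul {j k : ℕ} {w v : ℝ ≃ₜ ℝ} {M N : SL(2, ℝ)}
    (hη : 0 ≤ η) (hw : Clo a b η ρ j w M) (hv : Clo a b η ρ k v N) :
    Clo a b η ρ (j + k) (w * v) (M * N) := by
  intro x hx
  have hj : 0 ≤ (j : ℝ) * η := by positivity
  have hk : 0 ≤ (k : ℝ) * η := by positivity
  obtain ⟨hx1, hx2⟩ := hx
  push_cast at hx1 hx2
  obtain ⟨h1, h2, h3, h4⟩ := hv x ⟨by linarith, by linarith⟩
  have h3' := abs_le.1 h3
  obtain ⟨g1, g2, g3, g4⟩ := hw (v x) ⟨by linarith [h3'.1], by linarith [h3'.2]⟩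
  have hD : (M * N) 1 0 * x + (M * N) 1 1 = (M 1 0 * v x + M 1 1) * (N 1 0 * x + N 1 1) := by
    rw [mul_apply2, mul_apply2, h2]
    field_simp
    ring
  have hE : (M * N) 0 0 * x + (M * N) 0 1 = (M 0 0 * v x + M 0 1) * (N 1 0 * x + N 1 1) := by
    rw [mul_apply2, mul_apply2, h2]
    field_simp
    ring
  refine ⟨?_, ?_, ?_, ?_⟩
  · rw [hD]
    exact mul_ne_zero g1 h1
  · rw [hD, hE, mul_div_mul_right _ _ h1, ← g2]
    rfl
  · calc |(w * v) x - x| = |(w (v x) - v x) + (v x - x)| := by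
          congr 1
          change w (v x) - x = _
          ring
      _ ≤ |w (v x) - v x| + |v x - x| := abs_add_le _ _
      _ ≤ j * η + k * η := add_le_add g3 h3
      _ = ((j + k : ℕ) : ℝ) * η := by push_cast; ring
  · rw [hD, abs_mul, pow_add]
    exact mul_le_mul g4 h4 (abs_nonneg _) ((abs_nonneg _).trans g4)

theorem Clo.pow {k : ℕ} {w : ℝ ≃ₜ ℝ} {M : SL(2, ℝ)} (hη : 0 ≤ η) (hw : Clo a b η ρ k w M) (i : ℕ) :
    Clo a b η ρ (i * k) (w ^ i) (M ^ i) := by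
  induction i with
  | zero => simpa using Clo.one a b η ρ
  | succ i ih =>
    rw [pow_succ, pow_succ, Nat.succ_mul]
    exact ih.mul hη hw

/-- The basic estimate for a matrix which is close to `1`. -/
theorem near_est {ε R : ℝ} (hR : 0 ≤ R) (hε : ε * (1 + R) ^ 2 ≤ η / 2)
    (hε2 : ε * (1 + R) ≤ 1 / 2) (hε3 : ε * (1 + R) ≤ ρ - 1) {g : SL(2, ℝ)} (hg : NearOne ε g) {x : ℝ}
    (hx : |x| ≤ R) :
    g 1 0 * x + g 1 1 ≠ 0 ∧ |(g 0 0 * x + g 0 1) / (g 1 0 * x + g 1 1) - x| ≤ η ∧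
      |g 1 0 * x + g 1 1| ≤ ρ := by
  obtain ⟨h00, h01, h10, h11⟩ := hg
  have hε0 : 0 ≤ ε := (abs_nonneg _).trans h01
  have hD : |g 1 0 * x + g 1 1 - 1| ≤ ε * (1 + R) := by
    calc |g 1 0 * x + g 1 1 - 1| = |g 1 0 * x + (g 1 1 - 1)| := by congr 1; ring
      _ ≤ |g 1 0 * x| + |g 1 1 - 1| := abs_add_le _ _
      _ ≤ ε * R + ε := by
          rw [abs_mul]
          exact add_le_add (mul_le_mul h10 hx (abs_nonneg _) hε0) h11
      _ = ε * (1 + R) := by ring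
  have hD' := abs_le.1 hD
  have hDpos : 1 / 2 ≤ g 1 0 * x + g 1 1 := by linarith [hD'.1]
  have hD0 : 0 < g 1 0 * x + g 1 1 := by linarith
  refine ⟨hD0.ne', ?_, ?_⟩
  · have e1 : (g 0 0 * x + g 0 1) / (g 1 0 * x + g 1 1) - x =
        ((g 0 0 - 1) * x + g 0 1 - g 1 0 * x * x - (g 1 1 - 1) * x) / (g 1 0 * x + g 1 1) := by
      rw [eq_div_iff hD0.ne', sub_mul, div_mul_cancel₀ _ hD0.ne']
      ring
    rw [e1, abs_div, abs_of_pos hD0, div_le_iff₀ hD0]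
    have e2 : |(g 0 0 - 1) * x + g 0 1 - g 1 0 * x * x - (g 1 1 - 1) * x| ≤ ε * (1 + R) ^ 2 := by
      have t1 : |(g 0 0 - 1) * x| ≤ ε * R := by
        rw [abs_mul]; exact mul_le_mul h00 hx (abs_nonneg _) hε0
      have t2 : |g 1 0 * x * x| ≤ ε * R * R := by
        rw [abs_mul, abs_mul]
        exact mul_le_mul (mul_le_mul h10 hx (abs_nonneg _) hε0) hx (abs_nonneg _) (by positivity)
      have t3 : |(g 1 1 - 1) * x| ≤ ε * R := by
        rw [abs_mul]; exact mul_le_mul h11 hx (abs_nonneg _) hε0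
      have t1' := abs_le.1 t1
      have t2' := abs_le.1 t2
      have t3' := abs_le.1 t3
      have t4' := abs_le.1 h01
      rw [abs_le]
      constructor <;> nlinarith
    have hη : 0 ≤ η := by
      have : 0 ≤ ε * (1 + R) ^ 2 := by positivity
      linarith
    nlinarith
  · rw [abs_of_pos hD0]
    linarith [hD'.2]

theorem clo_of_acts {ε R : ℝ} (hR : 0 ≤ R) (ha : |a| ≤ R) (hb : |b| ≤ R)
    (hε : ε * (1 + R) ^ 2 ≤ η / 2)
    (hε2 : ε * (1 + R) ≤ 1 / 2) (hε3 : ε * (1 + R) ≤ ρ - 1) {g : SL(2, ℝ)} (hg : NearOne ε g)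
    {f : ℝ ≃ₜ ℝ} (hf : ActsAs f g a b) : Clo a b η ρ 1 f g := by
  intro x hx
  have hε0 : 0 ≤ ε := (abs_nonneg _).trans hg.2.1
  have hη : 0 ≤ η := by
    have : 0 ≤ ε * (1 + R) ^ 2 := by positivity
    linarith
  obtain ⟨hx1, hx2⟩ := hx
  simp only [Nat.cast_one, one_mul, pow_one] at hx1 hx2 ⊢
  have hxI : x ∈ Set.Ioo a b := ⟨by linarith, by linarith⟩
  have hxR : |x| ≤ R := by
    rw [abs_le]
    constructor
    · linarith [(abs_le.1 ha).1]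
    · linarith [(abs_le.1 hb).2]
  obtain ⟨h1, h2, h3⟩ := near_est hR hε hε2 hε3 hg hxR
  refine ⟨h1, hf x hxI, ?_, h3⟩
  rw [hf x hxI]
  exact h2

theorem NearOne.inv {ε : ℝ} {g : SL(2, ℝ)} (hg : NearOne ε g) : NearOne ε g⁻¹ := by
  obtain ⟨h00, h01, h10, h11⟩ := hg
  refine ⟨?_, ?_, ?_, ?_⟩
  · rw [inv00]; exact h11
  · rw [inv01, abs_neg]; exact h01
  · rw [inv10, abs_neg]; exact h10
  · rw [inv11]; exact h00

theorem clo_inv_of_acts {ε R : ℝ} (hR : 0 ≤ R) (ha : |a| ≤ R) (hb : |b| ≤ R)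
    (hε : ε * (1 + R) ^ 2 ≤ η / 2)
    (hε2 : ε * (1 + R) ≤ 1 / 2) (hε3 : ε * (1 + R) ≤ ρ - 1) {g : SL(2, ℝ)} (hg : NearOne ε g)
    {f : ℝ ≃ₜ ℝ} (hf : ActsAs f g a b) : Clo a b η ρ 1 f⁻¹ g⁻¹ := by
  intro x hx
  have hε0 : 0 ≤ ε := (abs_nonneg _).trans hg.2.1
  have hη : 0 ≤ η := by
    have : 0 ≤ ε * (1 + R) ^ 2 := by positivity
    linarith
  obtain ⟨hx1, hx2⟩ := hx
  simp only [Nat.cast_one, one_mul, pow_one] at hx1 hx2 ⊢
  have hxR : |x| ≤ R := by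
    rw [abs_le]
    constructor
    · linarith [(abs_le.1 ha).1]
    · linarith [(abs_le.1 hb).2]
  obtain ⟨h1, h2, h3⟩ := near_est hR hε hε2 hε3 hg.inv hxR
  obtain ⟨y, hy⟩ : ∃ y, y = ((g⁻¹ : SL(2, ℝ)) 0 0 * x + (g⁻¹ : SL(2, ℝ)) 0 1) /
      ((g⁻¹ : SL(2, ℝ)) 1 0 * x + (g⁻¹ : SL(2, ℝ)) 1 1) := ⟨_, rfl⟩
  rw [← hy] at h2
  have h2' := abs_le.1 h2
  have hyI : y ∈ Set.Ioo a b := ⟨by linarith [h2'.1], by linarith [h2'.2]⟩
  have hfy : f y = x := by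
    rw [hf y hyI, hy, inv00, inv01, inv10, inv11]
    rw [inv10, inv11] at h1
    have hdet := det_eq g
    have e1 : g 1 0 * ((g 1 1 * x + -g 0 1) / (-g 1 0 * x + g 0 0)) + g 1 1 =
        1 / (-g 1 0 * x + g 0 0) := by
      rw [eq_div_iff h1, add_mul, mul_assoc, div_mul_cancel₀ _ h1]
      linear_combination hdet
    have e2 : g 0 0 * ((g 1 1 * x + -g 0 1) / (-g 1 0 * x + g 0 0)) + g 0 1 =
        x / (-g 1 0 * x + g 0 0) := by
      rw [eq_div_iff h1, add_mul, mul_assoc, div_mul_cancel₀ _ h1]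
      linear_combination x * hdet
    rw [e1, e2, div_div_div_cancel_right₀ h1, div_one]
  have hinv : (f⁻¹ : ℝ ≃ₜ ℝ) x = y := by
    change f.symm x = y
    rw [← hfy]
    exact f.symm_apply_apply y
  refine ⟨h1, ?_, ?_, h3⟩
  · rw [hinv, hy]
  · rw [hinv]
    exact h2

end Pool.Agent.Helper59.PP
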