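import Pool.Agent.Helper59.PP.Loc

/-!
# Piecewise projective homeomorphisms form a group; the generators of the group of Lodha and Moore
-/

open Topology
open scoped MatrixGroups

namespace Pool.Agent.Helper59.PP

theorem phi_comp {M N : SL(2, ℝ)} {x y : ℝ} (hN : N 1 0 * x + N 1 1 ≠ 0)
    (hy : y = (N 0 0 * x + N 0 1) / (N 1 0 * x + N 1 1)) (hM : M 1 0 * y + M 1 1 ≠ 0) :
    (M * N) 1 0 * x + (M * N) 1 1 ≠ 0 ∧
      ((M * N) 0 0 * x + (M * N) 0 1) / ((M * N) 1 0 * x + (M * N) 1 1) =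
        (M 0 0 * y + M 0 1) / (M 1 0 * y + M 1 1) := by
  have hy' : y * (N 1 0 * x + N 1 1) = N 0 0 * x + N 0 1 := by rw [hy, div_mul_cancel₀ _ hN]
  have hD : (M * N) 1 0 * x + (M * N) 1 1 = (M 1 0 * y + M 1 1) * (N 1 0 * x + N 1 1) := by
    rw [mul_apply2, mul_apply2]
    linear_combination (-(M 1 0)) * hy'
  have hE : (M * N) 0 0 * x + (M * N) 0 1 = (M 0 0 * y + M 0 1) * (N 1 0 * x + N 1 1) := by
    rw [mul_apply2, mul_apply2]
    linear_combination (-(M 0 0)) * hy'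
  rw [hD, hE, mul_div_mul_right _ _ hN]
  exact ⟨mul_ne_zero hM hN, rfl⟩

theorem phi_inv {M : SL(2, ℝ)} {x y : ℝ} (hM : M 1 0 * x + M 1 1 ≠ 0)
    (hy : y = (M 0 0 * x + M 0 1) / (M 1 0 * x + M 1 1)) :
    M⁻¹ 1 0 * y + M⁻¹ 1 1 ≠ 0 ∧ (M⁻¹ 0 0 * y + M⁻¹ 0 1) / (M⁻¹ 1 0 * y + M⁻¹ 1 1) = x := by
  have hdet := det_eq M
  have e1 : M⁻¹ 1 0 * y + M⁻¹ 1 1 = 1 / (M 1 0 * x + M 1 1) := by
    rw [inv10, inv11, hy, eq_div_iff hM, add_mul, mul_assoc, div_mul_cancel₀ _ hM]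
    linear_combination hdet
  have e2 : M⁻¹ 0 0 * y + M⁻¹ 0 1 = x / (M 1 0 * x + M 1 1) := by
    rw [inv00, inv01, hy, eq_div_iff hM, add_mul, mul_assoc, div_mul_cancel₀ _ hM]
    linear_combination x * hdet
  rw [e1, e2, div_div_div_cancel_right₀ hM, div_one]
  exact ⟨div_ne_zero one_ne_zero hM, rfl⟩

theorem denom_ev {M : SL(2, ℝ)} {x : ℝ} (hM : M 1 0 * x + M 1 1 ≠ 0) :
    ∀ᶠ y in 𝓝 x, M 1 0 * y + M 1 1 ≠ 0 := by
  have hc : Continuous fun y : ℝ => M 1 0 * y + M 1 1 := by fun_prop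
  exact hc.continuousAt.eventually_ne hM

theorem IsPP.one : IsPP 1 := by
  refine ⟨∅, Set.finite_empty, fun x _ => ⟨1, by simp, ?_⟩⟩
  filter_upwards with y
  simp

theorem IsPP.mul {f g : ℝ ≃ₜ ℝ} (hf : IsPP f) (hg : IsPP g) : IsPP (f * g) := by
  obtain ⟨F, hF, hf⟩ := hf
  obtain ⟨G, hG, hg⟩ := hg
  refine ⟨G ∪ g ⁻¹' F, hG.union (hF.preimage g.injective.injOn), fun x hx => ?_⟩
  rw [Set.mem_union, not_or] at hx
  obtain ⟨N, hN, hN'⟩ := hg x hx.1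
  obtain ⟨M, hM, hM'⟩ := hf (g x) hx.2
  have hgx := hN'.self_of_nhds
  refine ⟨M * N, (phi_comp hN hgx hM).1, ?_⟩
  have h1 : ∀ᶠ y in 𝓝 x, M 1 0 * g y + M 1 1 ≠ 0 :=
    (g.continuous.continuousAt (x := x)).eventually (denom_ev hM)
  have h2 : ∀ᶠ y in 𝓝 x, f (g y) = (M 0 0 * g y + M 0 1) / (M 1 0 * g y + M 1 1) :=
    (g.continuous.continuousAt (x := x)).eventually hM'
  filter_upwards [h1, h2, hN', denom_ev hN] with y y1 y2 y3 y4
  change f (g y) = _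
  rw [y2, (phi_comp y4 y3 y1).2]

theorem IsPP.inv {f : ℝ ≃ₜ ℝ} (hf : IsPP f) : IsPP f⁻¹ := by
  obtain ⟨F, hF, hf⟩ := hf
  refine ⟨f '' F, hF.image f, fun x hx => ?_⟩
  have hx' : f.symm x ∉ F := fun h => hx ⟨f.symm x, h, f.apply_symm_apply x⟩
  obtain ⟨M, hM, hM'⟩ := hf _ hx'
  have hfx := hM'.self_of_nhds
  rw [f.apply_symm_apply] at hfx
  refine ⟨M⁻¹, (phi_inv hM hfx).1, ?_⟩
  have h1 : ∀ᶠ y in 𝓝 x, M 1 0 * f.symm y + M 1 1 ≠ 0 :=
    (f.symm.continuous.continuousAt (x := x)).eventually (denom_ev hM)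
  have h2 : ∀ᶠ y in 𝓝 x, f (f.symm y) =
      (M 0 0 * f.symm y + M 0 1) / (M 1 0 * f.symm y + M 1 1) :=
    (f.symm.continuous.continuousAt (x := x)).eventually hM'
  filter_upwards [h1, h2] with y y1 y2
  rw [f.apply_symm_apply] at y2
  change f.symm y = _
  exact (phi_inv y1 y2).2.symm

/-! ### the generators -/

theorem isPP_a {f : ℝ ≃ₜ ℝ} (hf : ∀ t, f t = t + 1) : IsPP f := by
  refine ⟨∅, Set.finite_empty, fun x _ => ⟨⟨!![1, 1; 0, 1], by simp [Matrix.det_fin_two_of]⟩, ?_, ?_⟩⟩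
  · simp
  · filter_upwards with y
    rw [hf]
    simp

theorem lmB_0 {t : ℝ} (h : t ≤ 0) : lmB t = t := by
  unfold lmB; rw [if_pos h]

theorem lmB_1 {t : ℝ} (h0 : 0 ≤ t) (h1 : t ≤ 1 / 2) : lmB t = t / (1 - t) := by
  unfold lmB
  rcases h0.eq_or_lt with rfl | h0
  · simp
  · rw [if_neg (not_le.2 h0), if_pos h1]

theorem lmB_2 {t : ℝ} (h0 : 1 / 2 ≤ t) (h1 : t ≤ 1) : lmB t = 3 - 1 / t := by
  rcases h0.eq_or_lt with rfl | h0
  · rw [lmB_1 (by norm_num) le_rfl]; norm_num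
  · unfold lmB
    rw [if_neg (by linarith), if_neg (by linarith), if_pos h1]

theorem lmB_3 {t : ℝ} (h0 : 1 ≤ t) : lmB t = t + 1 := by
  rcases h0.eq_or_lt with rfl | h0
  · rw [lmB_2 (by norm_num) le_rfl]; norm_num
  · unfold lmB
    rw [if_neg (by linarith), if_neg (by linarith), if_neg (by linarith)]

theorem lmC_0 {t : ℝ} (h : t ≤ 0) : lmC t = t := by
  unfold lmC; rw [if_pos h]

theorem lmC_1 {t : ℝ} (h0 : 0 ≤ t) (h1 : t ≤ 1) : lmC t = 2 * t / (1 + t) := by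
  unfold lmC
  rcases h0.eq_or_lt with rfl | h0
  · simp
  · rw [if_neg (not_le.2 h0), if_pos h1]

theorem lmC_2 {t : ℝ} (h0 : 1 ≤ t) : lmC t = t := by
  rcases h0.eq_or_lt with rfl | h0
  · rw [lmC_1 (by norm_num) le_rfl]; norm_num
  · unfold lmC
    rw [if_neg (by linarith), if_neg (by linarith)]

theorem isPP_b {f : ℝ ≃ₜ ℝ} (hf : ∀ t, f t = lmB t) : IsPP f := by
  refine ⟨{0, 1 / 2, 1}, by simp, fun x hx => ?_⟩
  simp only [Set.mem_insert_iff, Set.mem_singleton_iff, not_or] at hx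
  obtain ⟨h0, h1, h2⟩ := hx
  rcases lt_or_gt_of_ne h0 with h0 | h0
  · refine ⟨1, by simp, ?_⟩
    filter_upwards [isOpen_Iio.mem_nhds h0] with y hy
    rw [hf, lmB_0 (le_of_lt hy)]
    simp
  rcases lt_or_gt_of_ne h1 with h1 | h1
  · refine ⟨⟨!![1, 0; -1, 1], by simp [Matrix.det_fin_two_of]⟩, ?_, ?_⟩
    · simp
      linarith
    · filter_upwards [isOpen_Ioo.mem_nhds (show x ∈ Set.Ioo 0 (1 / 2) from ⟨h0, h1⟩)] with y hy
      rw [hf, lmB_1 hy.1.le hy.2.le]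
      simp
      rw [sub_eq_neg_add]
  rcases lt_or_gt_of_ne h2 with h2 | h2
  · refine ⟨⟨!![3, -1; 1, 0], by simp [Matrix.det_fin_two_of]⟩, ?_, ?_⟩
    · simp
      linarith
    · filter_upwards [isOpen_Ioo.mem_nhds (show x ∈ Set.Ioo (1 / 2) 1 from ⟨h1, h2⟩)] with y hy
      rw [hf, lmB_2 hy.1.le hy.2.le]
      have hy0 : y ≠ 0 := by linarith [hy.1]
      simp
      field_simp
      ring
  · refine ⟨⟨!![1, 1; 0, 1], by simp [Matrix.det_fin_two_of]⟩, ?_, ?_⟩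
    · simp
    · filter_upwards [isOpen_Ioi.mem_nhds h2] with y hy
      rw [hf, lmB_3 (le_of_lt hy)]
      simp

theorem isPP_c {f : ℝ ≃ₜ ℝ} (hf : ∀ t, f t = lmC t) : IsPP f := by
  refine ⟨{0, 1}, by simp, fun x hx => ?_⟩
  simp only [Set.mem_insert_iff, Set.mem_singleton_iff, not_or] at hx
  obtain ⟨h0, h2⟩ := hx
  rcases lt_or_gt_of_ne h0 with h0 | h0
  · refine ⟨1, by simp, ?_⟩
    filter_upwards [isOpen_Iio.mem_nhds h0] with y hy
    rw [hf, lmC_0 (le_of_lt hy)]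
    simp
  rcases lt_or_gt_of_ne h2 with h2 | h2
  · have hs : (√2 : ℝ) ≠ 0 := by positivity
    have hs2 : (√2 : ℝ) ^ 2 = 2 := Real.sq_sqrt (by norm_num)
    refine ⟨⟨!![√2, 0; 1 / √2, 1 / √2], by
      rw [Matrix.det_fin_two_of, zero_mul, sub_zero, mul_one_div_cancel hs]⟩, ?_, ?_⟩
    · simp
      have : 0 < (√2)⁻¹ * x + (√2)⁻¹ := by positivity
      exact this.ne'
    · filter_upwards [isOpen_Ioo.mem_nhds (show x ∈ Set.Ioo 0 1 from ⟨h0, h2⟩)] with y hy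
      rw [hf, lmC_1 hy.1.le hy.2.le]
      have hy0 : (1 : ℝ) + y ≠ 0 := by linarith [hy.1]
      have hy1 : y + 1 ≠ 0 := by linarith [hy.1]
      simp
      field_simp
      rw [hs2]
      ring
  · refine ⟨1, by simp, ?_⟩
    filter_upwards [isOpen_Ioi.mem_nhds h2] with y hy
    rw [hf, lmC_2 (le_of_lt hy)]
    simp

theorem isPP_lodhaMoore : ∀ f ∈ LodhaMoore, IsPP f := by
  intro f hf
  refine Subgroup.closure_induction ?_ IsPP.one (fun _ _ _ _ => IsPP.mul) (fun _ _ => IsPP.inv) hf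
  rintro f (h | h | h)
  · exact isPP_a h
  · exact isPP_b h
  · exact isPP_c h

end Pool.Agent.Helper59.PP
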