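import Pool.Agent.Helper59.PP.Gen
import Pool.Agent.Helper59.PP.Pw

/-!
# Monod's groups `H(A)` as groups of homeomorphisms of the line
-/

open Matrix OnePoint Topology
open scoped MatrixGroups

namespace Pool.Agent.Helper59.PP

open Pool.Agent.Helper59.EX

/-- Monod's group `H(A)`, as a group of homeomorphisms of the line: the extension of `f` to the
projective line is piecewise in `PSL(2, A)` with breakpoints in `P_A`. -/
noncomputable def MonodLine (A : Subring ℝ) : Subgroup (ℝ ≃ₜ ℝ) := (MonodH A).comap toProj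

/-- The real number of a point of the projective line. -/
noncomputable def toR (y : OnePoint ℝ) : ℝ := y.elim 0 id

theorem toR_coe (x : ℝ) : toR (x : OnePoint ℝ) = x := rfl

theorem coe_toR {y : OnePoint ℝ} (hy : y ≠ ∞) : ((toR y : ℝ) : OnePoint ℝ) = y := by
  obtain ⟨x, rfl⟩ := OnePoint.ne_infty_iff_exists.1 hy
  rw [toR_coe]

theorem apply_ne {f : OnePoint ℝ ≃ₜ OnePoint ℝ} (hf : f ∞ = ∞) (x : ℝ) :
    f (x : OnePoint ℝ) ≠ ∞ := by
  intro h
  rw [← hf] at h
  exact OnePoint.coe_ne_infty x (f.injective h)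

theorem coe_rf {f : OnePoint ℝ ≃ₜ OnePoint ℝ} (hf : f ∞ = ∞) (x : ℝ) :
    ((toR (f (x : OnePoint ℝ)) : ℝ) : OnePoint ℝ) = f (x : OnePoint ℝ) :=
  coe_toR (apply_ne hf x)

theorem continuous_rf {f : OnePoint ℝ ≃ₜ OnePoint ℝ} (hf : f ∞ = ∞) :
    Continuous (fun x : ℝ => toR (f (x : OnePoint ℝ))) := by
  rw [OnePoint.isOpenEmbedding_coe.isEmbedding.continuous_iff]
  have : ((fun x : ℝ => (x : OnePoint ℝ)) ∘ fun x : ℝ => toR (f (x : OnePoint ℝ))) =
      fun x : ℝ => f (x : OnePoint ℝ) := by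
    funext x
    exact coe_rf hf x
  rw [this]
  exact f.continuous.comp OnePoint.continuous_coe

theorem symm_infty {f : OnePoint ℝ ≃ₜ OnePoint ℝ} (hf : f ∞ = ∞) : f.symm ∞ = ∞ := by
  rw [Homeomorph.symm_apply_eq]
  exact hf.symm

/-- the restriction to the line -/
noncomputable def restr (f : OnePoint ℝ ≃ₜ OnePoint ℝ) (hf : f ∞ = ∞) : ℝ ≃ₜ ℝ where
  toFun x := toR (f (x : OnePoint ℝ))
  invFun x := toR (f.symm (x : OnePoint ℝ))
  left_inv x := by
    change toR (f.symm ((toR (f (x : OnePoint ℝ)) : ℝ) : OnePoint ℝ)) = x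
    rw [coe_rf hf, f.symm_apply_apply, toR_coe]
  right_inv x := by
    change toR (f ((toR (f.symm (x : OnePoint ℝ)) : ℝ) : OnePoint ℝ)) = x
    rw [coe_rf (symm_infty hf), f.apply_symm_apply, toR_coe]
  continuous_toFun := continuous_rf hf
  continuous_invFun := continuous_rf (symm_infty hf)

theorem restr_apply (f : OnePoint ℝ ≃ₜ OnePoint ℝ) (hf : f ∞ = ∞) (x : ℝ) :
    restr f hf x = toR (f (x : OnePoint ℝ)) := rfl

theorem toProj_restr (f : OnePoint ℝ ≃ₜ OnePoint ℝ) (hf : f ∞ = ∞) : toProj (restr f hf) = f := by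
  ext x
  induction x using OnePoint.rec with
  | infty => rw [toProj_infty, hf]
  | coe x => rw [toProj_coe, restr_apply, coe_rf hf]

theorem denom_of_germ {f : ℝ ≃ₜ ℝ} {g : SL(2, ℝ)} {x : ℝ}
    (h : toProj f (x : OnePoint ℝ) = mob g (x : OnePoint ℝ)) : g 1 0 * x + g 1 1 ≠ 0 := by
  intro h0
  have h1 : mob g (x : OnePoint ℝ) = ∞ := by
    unfold mob
    rw [OnePoint.smul_some_eq_ite, if_pos]
    simpa using h0
  rw [h1, toProj_coe] at h
  exact OnePoint.coe_ne_infty _ h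

theorem isPP_monodLine (A : Subring ℝ) : ∀ f ∈ MonodLine A, IsPP f := by
  intro f hf
  obtain ⟨⟨F, hF, -, h⟩, -⟩ := hf
  refine ⟨(fun x : ℝ => (x : OnePoint ℝ)) ⁻¹' F, hF.preimage OnePoint.coe_injective.injOn,
    fun x hx => ?_⟩
  obtain ⟨g, hg⟩ := h (x : OnePoint ℝ) hx
  have h1 := denom_of_germ hg.self_of_nhds
  refine ⟨_, h1, ?_⟩
  have h2 := (OnePoint.continuous_coe.tendsto x).eventually hg
  filter_upwards [h2, denom_ev h1] with y y1 y2
  rw [toProj_coe, mob_coe _ y y2] at y1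
  exact OnePoint.coe_injective y1

theorem zmat_near {t : ℝ} (h0 : 0 ≤ t) (h1 : t ≤ 1) (i : Fin 2) :
    NearOne (20 * t) (zmat t (i : ℕ)) := by
  have h2 : t ^ 2 ≤ t := by nlinarith
  have h3 : t ^ 3 ≤ t := by nlinarith [pow_nonneg h0 2]
  have h3' : 0 ≤ t ^ 3 := pow_nonneg h0 3
  have h2' : 0 ≤ t ^ 2 := pow_nonneg h0 2
  have hi : ((i : ℕ) : ℝ) = 0 ∨ ((i : ℕ) : ℝ) = 1 := by
    fin_cases i <;> simp
  refine ⟨?_, ?_, ?_, ?_⟩ <;>
  · rw [abs_le]
    simp only [zmat, Matrix.of_apply, Matrix.cons_val', Matrix.cons_val_zero, Matrix.cons_val_one,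
      Matrix.cons_val_fin_one]
    rcases hi with hi | hi <;> (try rw [hi]) <;> constructor <;> nlinarith

theorem monodLine_small (A : Subring ℝ) (hA : ∃ a ∈ A, ∀ n : ℤ, a ≠ (n : ℝ)) :
    HasSmallFreePairs (MonodLine A) := by
  refine ⟨0, 1, by norm_num, fun ε hε => ?_⟩
  obtain ⟨t, htA, ht0, htε, K, _, T, hT, hint, hP⟩ :=
    exists_param A hA (min (ε / 20) (1 / 1000)) 1000 (by positivity)
  have ht1 : t < ε / 20 := htε.trans_le (min_le_left _ _)
  have ht2 : t < 1 / 1000 := htε.trans_le (min_le_right _ _)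
  have hfree := free_mob (n := 2) (by norm_num) t T hint (by push_cast; linarith) hP
  refine ⟨fun i => zmat t (i : ℕ), fun i => ?_, ?_, fun i => ?_⟩
  · obtain ⟨k1, k2, k3, k4⟩ := zmat_near ht0.le (by linarith) i
    have : 20 * t ≤ ε := by linarith
    exact ⟨k1.trans this, k2.trans this, k3.trans this, k4.trans this⟩
  · have e1 : FreeGroup.lift (fun i : Fin 2 => mobPerm (zmat t (i : ℕ))) =
        (mobPerm : SL(2, ℝ) →* Equiv.Perm (OnePoint ℝ)).comp
          (FreeGroup.lift (fun i : Fin 2 => zmat t (i : ℕ))) := by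
      ext i : 1
      simp
    rw [e1, MonoidHom.coe_comp] at hfree
    exact Function.Injective.of_comp hfree
  · have hi : (((i : Fin 2) : ℕ) : ℝ) ≤ 1 := by exact_mod_cast Nat.le_of_lt_succ i.2
    obtain ⟨f, hf, hloc⟩ := exists_monod_elt A t htA ht0 (i : ℕ) (by nlinarith)
    refine ⟨restr f hf.2, ?_, fun x hx => ?_⟩
    · change toProj (restr f hf.2) ∈ MonodH A
      rw [toProj_restr]
      exact hf
    · have h1 := (hloc x ⟨hx.1.le, hx.2.le⟩).self_of_nhds
      rw [← toProj_restr f hf.2] at h1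
      have h2 := denom_of_germ h1
      rw [mob_coe _ _ h2, toProj_coe] at h1
      exact OnePoint.coe_injective h1

end Pool.Agent.Helper59.PP
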